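import Mathlib
import Pool.Agent.Q282.RskDes

/-!
MP_d77547, Q1: the set-partition quasisymmetric expansion of the normalised one-row Jack
polynomial holds for every `n`.
-/

namespace Pool.Agent.Results.MP_d77547_co.OneRowJack

open MvPolynomial Q282.Rsk

/-- The descent set of a tableau `T` with `n` cells: the `i` such that `i + 1` lies in a row
strictly below the row of `i`. -/
def Des (n : ℕ) (T : List (List ℕ)) : Set ℕ :=
  {i | 1 ≤ i ∧ i < n ∧ rowOf T i < rowOf T (i + 1)}

/-- The condition on the index sequences `i_1, ..., i_n` in the definition of `F_S` (positions are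
numbered from `0` here, so position `j + 1` of the text is `j`). -/
def Adm {n N : ℕ} (S : Set ℕ) (i : Fin n → Fin N) : Prop :=
  Monotone i ∧ ∀ j k : Fin n, (k : ℕ) = j + 1 → (j : ℕ) + 1 ∈ S → i j < i k

open Classical in
/-- The fundamental quasisymmetric polynomial `F_S(x_1, ..., x_N)` of degree `n`. -/
noncomputable def F (R : Type) [CommRing R] (N n : ℕ) (S : Set ℕ) : MvPolynomial (Fin N) R :=
  ∑ i : Fin n → Fin N, if Adm S i then ∏ j, X (i j) else 0

/-- The one-line word of `f_beta(pi)`: position `p` receives the `(k+1)`-st smallest element of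
the block `B` of `pi(p)`, where `k` is the number of positions `q < p` with `pi(q) ∈ B`. -/
def fb {n : ℕ} (β : Finpartition (Finset.univ : Finset (Fin n))) (π : Equiv.Perm (Fin n))
    (p : Fin n) : Fin n :=
  ((β.part (π p)).sort (· ≤ ·)).getD
    ((Finset.univ.filter fun q => q < p ∧ π q ∈ β.part (π p)).card) (π p)

/-- The same word, with the letters `1, ..., n`. -/
def word {n : ℕ} (β : Finpartition (Finset.univ : Finset (Fin n))) (π : Equiv.Perm (Fin n)) :
    List ℕ :=
  List.ofFn fun p => (fb β π p : ℕ) + 1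

/-- The normalised one-row Jack polynomial in the variables `x_1, ..., x_N`. -/
noncomputable def J (n N : ℕ) : MvPolynomial (Fin N) (Polynomial ℤ) :=
  ∑ lam : Nat.Partition n,
    C ((n.factorial / (lam.parts.map Nat.factorial).prod : ℕ) *
      (lam.parts.map fun l => ∏ arm ∈ Finset.range l, ((Polynomial.X : Polynomial ℤ) + arm)).prod) *
    msymm (Fin N) (Polynomial ℤ) lam

/-- The falling factorial `alpha (alpha - 1) ... (alpha - k + 1)`. -/
noncomputable def falling (k : ℕ) : Polynomial ℤ :=
  ∏ j ∈ Finset.range k, ((Polynomial.X : Polynomial ℤ) - j)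

/-! ### Reduction to integer values of `alpha` -/

lemma ext_eval {N : ℕ} (p q : MvPolynomial (Fin N) (Polynomial ℤ))
    (h : ∀ a : ℕ, map (Polynomial.evalRingHom (a : ℤ)) p = map (Polynomial.evalRingHom (a : ℤ)) q) :
    p = q := by
  ext1 m
  apply Polynomial.eq_of_infinite_eval_eq
  have : Set.range (fun a : ℕ => (a : ℤ)) ⊆
      {x | Polynomial.eval x (coeff m p) = Polynomial.eval x (coeff m q)} := by
    rintro _ ⟨a, rfl⟩
    have := congrArg (coeff m) (h a)
    rw [coeff_map, coeff_map] at this
    exact this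
  exact Set.Infinite.mono this (Set.infinite_range_of_injective Nat.cast_injective)

lemma map_F {N n : ℕ} (S : Set ℕ) (a : ℤ) :
    map (Polynomial.evalRingHom a) (F (Polynomial ℤ) N n S) = F ℤ N n S := by
  classical
  rw [F, F, map_sum]
  refine Finset.sum_congr rfl fun i _ => ?_
  split_ifs
  · rw [map_prod]
    exact Finset.prod_congr rfl fun j _ => map_X _ _
  · rw [map_zero]

/-! ### Sorting on classes -/

def SortedOn {n : ℕ} {α β : Type} [LE β] (c : Fin n → α) (y : Fin n → β) : Prop :=
  ∀ p q, p < q → c p = c q → y p ≤ y q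

lemma exists_sorting {n : ℕ} {α β : Type} [LinearOrder α] [LinearOrder β] (c : Fin n → α)
    (y : Fin n → β) : ∃ g : Equiv.Perm (Fin n), c ∘ g = c ∧ SortedOn c (y ∘ g) := by
  let f : Fin n → α ×ₗ β := fun p => toLex (c p, y p)
  let τ := Tuple.sort f
  let σ := Tuple.sort c
  have hτ : Monotone (f ∘ τ) := Tuple.monotone_sort f
  have hσ : Monotone (c ∘ σ) := Tuple.monotone_sort c
  have hcτ : Monotone (c ∘ τ) := by
    intro i j hij
    have := hτ hij
    rw [Function.comp_apply, Function.comp_apply, Prod.Lex.toLex_le_toLex] at this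
    rcases this with h | h
    · exact h.le
    · exact h.1.le
  have hστ : c ∘ τ = c ∘ σ := Tuple.unique_monotone hcτ hσ
  have hst := (Tuple.eq_sort_iff (f := c) (σ := σ)).mp rfl
  refine ⟨σ⁻¹.trans τ, ?_, ?_⟩
  · funext p
    have := congrFun hστ (σ⁻¹ p)
    simp only [Function.comp_apply, Equiv.trans_apply] at this ⊢
    rw [this]; simp
  · intro p q hpq hc
    have h1 : σ⁻¹ p < σ⁻¹ q := by
      by_contra hcon
      rw [not_lt] at hcon
      rcases hcon.lt_or_eq with h | h
      · have := hst.2 _ _ h (by simp [hc])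
        simp at this
        exact absurd this (not_lt.mpr hpq.le)
      · have := σ⁻¹.injective h
        exact absurd this.symm hpq.ne
    have h2 := hτ h1.le
    rw [Function.comp_apply, Function.comp_apply, Prod.Lex.toLex_le_toLex] at h2
    have h3 : ∀ r, c (τ (σ⁻¹ r)) = c r := by
      intro r
      have := congrFun hστ (σ⁻¹ r)
      simp only [Function.comp_apply] at this
      rw [this]; simp
    simp only [h3] at h2
    rcases h2 with h | h
    · exact absurd hc h.ne
    · exact h.2

lemma sorted_unique {n : ℕ} {α β : Type} [LinearOrder α] [LinearOrder β] (c : Fin n → α)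
    (y1 y2 : Fin n → β) (h1 : SortedOn c y1) (h2 : SortedOn c y2) (g : Equiv.Perm (Fin n))
    (hg : c ∘ g = c) (hy : y2 = y1 ∘ g) : y1 = y2 := by
  let σ := Tuple.sort c
  have hst := (Tuple.eq_sort_iff (f := c) (σ := σ)).mp rfl
  have key : ∀ y : Fin n → β, SortedOn c y →
      Monotone ((fun p => toLex (c p, y p) : Fin n → α ×ₗ β) ∘ σ) := by
    intro y hy i j hij
    rw [Function.comp_apply, Function.comp_apply, Prod.Lex.toLex_le_toLex]
    rcases (hst.1 hij).lt_or_eq with h | h
    · exact Or.inl h
    · refine Or.inr ⟨h, ?_⟩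
      rcases hij.lt_or_eq with h' | h'
      · exact hy _ _ (hst.2 i j h' h) h
      · rw [h']
  have k1 := key y1 h1
  have k2 := key y2 h2
  have e : ((fun p => toLex (c p, y2 p) : Fin n → α ×ₗ β) ∘ σ) =
      ((fun p => toLex (c p, y1 p) : Fin n → α ×ₗ β) ∘ (σ.trans g)) := by
    funext p
    simp only [Function.comp_apply, Equiv.trans_apply, hy]
    have := congrFun hg (σ p)
    rw [Function.comp_apply] at this
    rw [this]
  rw [e] at k2
  have k3 := Tuple.unique_monotone k1 k2
  rw [← e] at k3
  funext p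
  have := congrFun k3 (σ⁻¹ p)
  simp at this
  exact this

/-! ### The key identity for a fixed colouring of the positions -/

open Classical in
lemma key_identity {n N a : ℕ} (c : Fin n → Fin a) (wt : (Fin n → Fin N) → MvPolynomial (Fin N) ℤ)
    (hwt : ∀ y (g : Equiv.Perm (Fin n)), wt (y ∘ g) = wt y) :
    ∑ g : Equiv.Perm (Fin n), (if c ∘ g = c then
      ∑ y : Fin n → Fin N, (if SortedOn c y then wt y else 0) else 0) =
    ∑ g : Equiv.Perm (Fin n), (if c ∘ g = c then
      ∑ y : Fin n → Fin N, (if y ∘ g = y then wt y else 0) else 0) := by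
  have h1 : ∀ g : Equiv.Perm (Fin n), ∑ y : Fin n → Fin N, (if SortedOn c y then wt y else 0) =
      ∑ y : Fin n → Fin N, (if SortedOn c (y ∘ g) then wt y else 0) := by
    intro g
    rw [← Equiv.sum_comp (Equiv.arrowCongr g⁻¹ (Equiv.refl (Fin N)))]
    refine Finset.sum_congr rfl fun y _ => ?_
    have : (Equiv.arrowCongr g⁻¹ (Equiv.refl (Fin N))) y = y ∘ g := by
      funext p; simp [Equiv.arrowCongr]; rfl
    rw [this, hwt]
  have h2 : ∑ g : Equiv.Perm (Fin n), (if c ∘ g = c then
      ∑ y : Fin n → Fin N, (if SortedOn c y then wt y else 0) else 0) =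
      ∑ y : Fin n → Fin N, ∑ g : Equiv.Perm (Fin n),
        (if c ∘ g = c ∧ SortedOn c (y ∘ g) then wt y else 0) := by
    rw [Finset.sum_comm]
    refine Finset.sum_congr rfl fun g _ => ?_
    rw [h1 g]
    by_cases h : c ∘ g = c
    · simp [h]
    · simp [h]
  have h3 : ∑ g : Equiv.Perm (Fin n), (if c ∘ g = c then
      ∑ y : Fin n → Fin N, (if y ∘ g = y then wt y else 0) else 0) =
      ∑ y : Fin n → Fin N, ∑ g : Equiv.Perm (Fin n),
        (if c ∘ g = c ∧ y ∘ g = y then wt y else 0) := by
    rw [Finset.sum_comm]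
    refine Finset.sum_congr rfl fun g _ => ?_
    by_cases h : c ∘ g = c
    · simp [h]
    · simp [h]
  rw [h2, h3]
  refine Finset.sum_congr rfl fun y _ => ?_
  obtain ⟨g0, hg0, hs0⟩ := exists_sorting c y
  rw [← Equiv.sum_comp (Equiv.mulRight g0)]
  refine Finset.sum_congr rfl fun g _ => ?_
  congr 1
  apply propext
  simp only [Equiv.coe_mulRight]
  have hcoe : ∀ {γ : Type} (z : Fin n → γ), z ∘ ⇑(g * g0) = (z ∘ g) ∘ g0 := fun z => rfl
  rw [hcoe, hcoe]
  have hg0' : ∀ z : Fin n → Fin a, z ∘ g0 = c → z = c := by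
    intro z hz
    funext p
    have e1 := congrFun hz (g0⁻¹ p)
    have e2 := congrFun hg0 (g0⁻¹ p)
    simp at e1 e2
    rw [e1, ← e2]
  constructor
  · rintro ⟨e1, e2⟩
    have e3 : c ∘ g = c := hg0' _ e1
    refine ⟨e3, ?_⟩
    have e4 : y ∘ g0 = (y ∘ g) ∘ g0 := by
      apply sorted_unique c _ _ hs0 e2 (g0⁻¹ * g * g0)
      · funext p
        have e5 := congrFun e3 (g0 p)
        have e6 := congrFun hg0 (g0⁻¹ (g (g0 p)))
        have e7 := congrFun hg0 p
        have e8 : g0 (g0⁻¹ (g (g0 p))) = g (g0 p) := by simp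
        simp only [Function.comp_apply, Equiv.Perm.coe_mul, e8] at e5 e6 e7 ⊢
        rw [← e6, e5, e7]
      · funext p
        simp [Equiv.Perm.coe_mul]
    funext p
    have := congrFun e4 (g0⁻¹ p)
    simp at this
    exact this.symm
  · rintro ⟨e1, e2⟩
    rw [e1, e2]
    exact ⟨hg0, hs0⟩

/-! ### Counting the stabilizers -/

open Classical in
lemma count_stab {a N : ℕ} : ∀ (n : ℕ) (y : Fin n → Fin N),
    (∑ c : Fin n → Fin a, ∑ g : Equiv.Perm (Fin n), (if c ∘ g = c ∧ y ∘ g = y then (1 : ℤ) else 0)) =
    ∏ i : Fin N, ∏ j ∈ Finset.range (Finset.univ.filter fun p => y p = i).card, ((a : ℤ) + j) := by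
  intro n
  induction n with
  | zero =>
    intro y
    have : ∀ (c : Fin 0 → Fin a) (g : Equiv.Perm (Fin 0)), (c ∘ g = c ∧ y ∘ g = y) :=
      fun c g => ⟨funext fun p => p.elim0, funext fun p => p.elim0⟩
    have h0 : ∀ (c : Fin 0 → Fin a) (g : Equiv.Perm (Fin 0)),
        (if c ∘ g = c ∧ y ∘ g = y then (1 : ℤ) else 0) = 1 := fun c g => if_pos (this c g)
    simp only [h0]
    simp
  | succ n ih =>
    intro y
    let y' : Fin n → Fin N := fun p => y p.succ
    have h1 : (∑ c : Fin (n + 1) → Fin a, ∑ g : Equiv.Perm (Fin (n + 1)),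
        (if c ∘ g = c ∧ y ∘ g = y then (1 : ℤ) else 0)) =
        ∑ c0 : Fin a, ∑ c' : Fin n → Fin a, ∑ p : Fin (n + 1), ∑ e : Equiv.Perm (Fin n),
        (if ((Fin.cons c0 c' : Fin (n + 1) → Fin a) p = c0 ∧ y p = y 0) ∧
          (c' ∘ e = c' ∧ y' ∘ e = y') then (1 : ℤ) else 0) := by
      rw [← Equiv.sum_comp (Fin.consEquiv fun _ => Fin a), Fintype.sum_prod_type]
      refine Finset.sum_congr rfl fun c0 _ => Finset.sum_congr rfl fun c' _ => ?_
      rw [← Equiv.sum_comp Equiv.Perm.decomposeFin.symm, Fintype.sum_prod_type]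
      refine Finset.sum_congr rfl fun p _ => Finset.sum_congr rfl fun e _ => ?_
      congr 1
      apply propext
      have hcons : (Fin.consEquiv fun _ => Fin a) (c0, c') = (Fin.cons c0 c' : Fin (n + 1) → Fin a) := rfl
      rw [hcons]
      set c : Fin (n + 1) → Fin a := Fin.cons c0 c' with hc
      have hsw : ∀ {γ : Type} (z : Fin (n + 1) → γ), z p = z 0 → ∀ q, z (Equiv.swap 0 p q) = z q := by
        intro γ z hz q
        by_cases h1 : q = 0
        · subst h1; rw [Equiv.swap_apply_left, hz]
        · by_cases h2 : q = p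
          · subst h2; rw [Equiv.swap_apply_right, hz]
          · rw [Equiv.swap_apply_of_ne_of_ne h1 h2]
      have hgen : ∀ {γ : Type} (z : Fin (n + 1) → γ),
          z ∘ (Equiv.Perm.decomposeFin.symm (p, e)) = z ↔
          (z p = z 0 ∧ (fun q : Fin n => z q.succ) ∘ e = fun q => z q.succ) := by
        intro γ z
        constructor
        · intro h
          have h0 := congrFun h 0
          rw [Function.comp_apply, Equiv.Perm.decomposeFin_symm_apply_zero] at h0
          refine ⟨h0, ?_⟩
          funext q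
          have h1 := congrFun h q.succ
          rw [Function.comp_apply, Equiv.Perm.decomposeFin_symm_apply_succ, hsw z h0] at h1
          exact h1
        · rintro ⟨h0, h1⟩
          funext q
          refine Fin.cases ?_ (fun q => ?_) q
          · rw [Function.comp_apply, Equiv.Perm.decomposeFin_symm_apply_zero, h0]
          · rw [Function.comp_apply, Equiv.Perm.decomposeFin_symm_apply_succ, hsw z h0]
            exact congrFun h1 q
      rw [hgen c, hgen y]
      have hc0 : c 0 = c0 := rfl
      have hcs : (fun q : Fin n => c q.succ) = c' := by funext q; rfl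
      rw [hc0, hcs]
      tauto
    rw [h1]
    have h2 : ∀ (c' : Fin n → Fin a), (∑ c0 : Fin a, ∑ p : Fin (n + 1),
        (if ((Fin.cons c0 c' : Fin (n + 1) → Fin a) p = c0 ∧ y p = y 0) then (1 : ℤ) else 0)) =
        a + (Finset.univ.filter fun p : Fin n => y' p = y 0).card := by
      intro c'
      rw [Finset.sum_comm, Fin.sum_univ_succ]
      congr 1
      · simp
      · rw [Finset.card_filter]
        push_cast
        refine Finset.sum_congr rfl fun p _ => ?_
        by_cases hy : y p.succ = y 0
        · have : y' p = y 0 := hy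
          simp [hy, this]
        · have : ¬ y' p = y 0 := hy
          simp [hy, this]
    have h3 : (∑ c0 : Fin a, ∑ c' : Fin n → Fin a, ∑ p : Fin (n + 1), ∑ e : Equiv.Perm (Fin n),
        (if ((Fin.cons c0 c' : Fin (n + 1) → Fin a) p = c0 ∧ y p = y 0) ∧
          (c' ∘ e = c' ∧ y' ∘ e = y') then (1 : ℤ) else 0)) =
        ∑ c' : Fin n → Fin a, (∑ c0 : Fin a, ∑ p : Fin (n + 1),
        (if ((Fin.cons c0 c' : Fin (n + 1) → Fin a) p = c0 ∧ y p = y 0) then (1 : ℤ) else 0)) *
        ∑ e : Equiv.Perm (Fin n), (if (c' ∘ e = c' ∧ y' ∘ e = y') then (1 : ℤ) else 0) := by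
      rw [Finset.sum_comm]
      refine Finset.sum_congr rfl fun c' _ => ?_
      rw [Finset.sum_mul]
      refine Finset.sum_congr rfl fun c0 _ => ?_
      rw [Finset.sum_mul]
      refine Finset.sum_congr rfl fun p _ => ?_
      rw [Finset.mul_sum]
      refine Finset.sum_congr rfl fun e _ => ?_
      by_cases hA : ((Fin.cons c0 c' : Fin (n + 1) → Fin a) p = c0 ∧ y p = y 0)
      · by_cases hB : (c' ∘ e = c' ∧ y' ∘ e = y')
        · rw [if_pos ⟨hA, hB⟩, if_pos hA, if_pos hB, one_mul]
        · rw [if_neg (fun h => hB h.2), if_neg hB, mul_zero]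
      · rw [if_neg (fun h => hA h.1), if_neg hA, zero_mul]
    rw [h3]
    simp only [h2]
    rw [← Finset.mul_sum, ih y']
    -- product side
    have h4 : ∀ i : Fin N, (Finset.univ.filter fun p : Fin (n + 1) => y p = i).card =
        (Finset.univ.filter fun p : Fin n => y' p = i).card + (if y 0 = i then 1 else 0) := by
      intro i
      rw [Finset.card_filter, Finset.card_filter, Fin.sum_univ_succ, add_comm]
    rw [← Finset.mul_prod_erase _ _ (Finset.mem_univ (y 0)),
      ← Finset.mul_prod_erase Finset.univ (fun i : Fin N =>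
        ∏ j ∈ Finset.range (Finset.univ.filter fun p => y p = i).card, ((a : ℤ) + j))
        (Finset.mem_univ (y 0)), h4 (y 0), if_pos rfl, Finset.prod_range_succ]
    have h5 : ∏ x ∈ Finset.univ.erase (y 0),
        ∏ j ∈ Finset.range (Finset.univ.filter fun p => y' p = x).card, ((a : ℤ) + j) =
        ∏ x ∈ Finset.univ.erase (y 0),
        ∏ j ∈ Finset.range (Finset.univ.filter fun p => y p = x).card, ((a : ℤ) + j) := by
      refine Finset.prod_congr rfl fun x hx => ?_
      rw [h4 x, if_neg (Finset.ne_of_mem_erase hx).symm, add_zero]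
    rw [h5]
    ring

/-! ### Fundamental quasisymmetric functions and standardization -/

lemma ofFn_idxOf {n : ℕ} (w : Equiv.Perm (Fin n)) (v : Fin n) :
    (List.ofFn fun p => (w p : ℕ) + 1).idxOf ((v : ℕ) + 1) = (w⁻¹ v : Fin n) := by
  have hnd : (List.ofFn fun p => (w p : ℕ) + 1).Nodup := by
    rw [List.nodup_ofFn]
    intro p q h
    simp only [add_left_inj] at h
    exact w.injective (Fin.ext h)
  have h1 : (List.ofFn fun p => (w p : ℕ) + 1)[((w⁻¹ v : Fin n) : ℕ)]'(by simp) = (v : ℕ) + 1 := by
    simp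
  conv_lhs => rw [← h1]
  exact hnd.idxOf_getElem _ _

lemma mem_des_iff {n : ℕ} (w : Equiv.Perm (Fin n)) (j k : Fin n) (hjk : (k : ℕ) = j + 1) :
    (j : ℕ) + 1 ∈ Des n (P (List.ofFn fun p => (w p : ℕ) + 1)) ↔ w⁻¹ k < w⁻¹ j := by
  have hnd : (List.ofFn fun p => (w p : ℕ) + 1).Nodup := by
    rw [List.nodup_ofFn]
    intro p q h
    simp only [add_left_inj] at h
    exact w.injective (Fin.ext h)
  have hmem : ∀ v : Fin n, (v : ℕ) + 1 ∈ (List.ofFn fun p => (w p : ℕ) + 1) := by
    intro v
    rw [List.mem_ofFn]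
    exact ⟨w⁻¹ v, by simp⟩
  have h1 := des_iff (List.ofFn fun p => (w p : ℕ) + 1) hnd ((j : ℕ) + 1) (hmem j)
    (by rw [← hjk]; exact hmem k)
  rw [ofFn_idxOf w j] at h1
  have h2 : (List.ofFn fun p => (w p : ℕ) + 1).idxOf ((j : ℕ) + 1 + 1) = (w⁻¹ k : Fin n) := by
    rw [← hjk]; exact ofFn_idxOf w k
  rw [h2] at h1
  rw [Des]
  show (1 ≤ (j : ℕ) + 1 ∧ (j : ℕ) + 1 < n ∧ _) ↔ _
  rw [h1]
  have := k.isLt
  constructor
  · intro h; exact h.2.2
  · intro h; exact ⟨by omega, by omega, h⟩

lemma adm_iff {n N : ℕ} (w : Equiv.Perm (Fin n)) (y : Fin n → Fin N) :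
    Adm (Des n (P (List.ofFn fun p => (w p : ℕ) + 1))) (y ∘ (w⁻¹ : Equiv.Perm (Fin n))) ↔
      w⁻¹ = Tuple.sort y := by
  rw [Tuple.eq_sort_iff, Adm]
  refine and_congr_right fun hm => ?_
  constructor
  · intro h
    -- induct on the distance
    have key : ∀ d : ℕ, ∀ i j : Fin n, (j : ℕ) = i + d + 1 → y (w⁻¹ i) = y (w⁻¹ j) →
        w⁻¹ i < w⁻¹ j := by
      intro d
      induction d with
      | zero =>
        intro i j hij he
        have h1 := h i j (by omega)
        rw [mem_des_iff w i j (by omega)] at h1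
        by_contra hcon
        rw [not_lt] at hcon
        have hne : w⁻¹ j ≠ w⁻¹ i := fun h => by
          have := w⁻¹.injective h
          rw [this] at hij
          omega
        have := h1 (lt_of_le_of_ne hcon hne)
        simp only [Function.comp_apply] at this
        exact absurd he this.ne
      | succ d ih =>
        intro i j hij he
        have hj := j.isLt
        let k : Fin n := ⟨i + d + 1, by omega⟩
        have e1 : y (w⁻¹ i) ≤ y (w⁻¹ k) := hm (show i ≤ k from by
          show (i : ℕ) ≤ i + d + 1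
          omega)
        have e2 : y (w⁻¹ k) ≤ y (w⁻¹ j) := hm (show k ≤ j from by
          show (i : ℕ) + d + 1 ≤ j
          omega)
        have e3 := ih i k rfl (le_antisymm e1 (by rw [he]; exact e2))
        have h1 := h k j (by show (j : ℕ) = i + d + 1 + 1; omega)
        rw [mem_des_iff w k j (by show (j : ℕ) = i + d + 1 + 1; omega)] at h1
        have e4 : w⁻¹ k < w⁻¹ j := by
          by_contra hcon
          rw [not_lt] at hcon
          have hne : w⁻¹ j ≠ w⁻¹ k := fun h => by
            have := w⁻¹.injective h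
            rw [this] at hij
            have : (k : ℕ) = i + d + 1 := rfl
            omega
          have := h1 (lt_of_le_of_ne hcon hne)
          simp only [Function.comp_apply] at this
          exact absurd this (not_lt.mpr (by rw [← he]; exact e1))
        exact e3.trans e4
    intro i j hij he
    have hij' : (i : ℕ) < j := hij
    exact key (j - i - 1) i j (by omega) he
  · intro h j k hjk hmem
    rw [mem_des_iff w j k hjk] at hmem
    have hle : (y ∘ (w⁻¹ : Equiv.Perm (Fin n))) j ≤ (y ∘ (w⁻¹ : Equiv.Perm (Fin n))) k :=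
      hm (show j ≤ k from by show (j : ℕ) ≤ k; omega)
    rcases hle.lt_or_eq with h1 | h1
    · exact h1
    · have := h j k (show (j : ℕ) < k by omega) h1
      exact absurd hmem (not_lt.mpr this.le)

open Classical in
lemma F_word {n N : ℕ} (w : Equiv.Perm (Fin n)) :
    F ℤ N n (Des n (P (List.ofFn fun p => (w p : ℕ) + 1))) =
      ∑ y : Fin n → Fin N, if w⁻¹ = Tuple.sort y then ∏ p, X (y p) else 0 := by
  rw [F, ← Equiv.sum_comp (Equiv.arrowCongr w (Equiv.refl (Fin N)))]
  refine Finset.sum_congr rfl fun y _ => ?_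
  have e : (Equiv.arrowCongr w (Equiv.refl (Fin N))) y = y ∘ (w⁻¹ : Equiv.Perm (Fin n)) := by
    funext p; simp [Equiv.arrowCongr]
  rw [e, if_congr (adm_iff w y) rfl rfl]
  congr 1
  exact Equiv.prod_comp w⁻¹ (fun p => (X (y p) : MvPolynomial (Fin N) ℤ))

/-! ### The maps `f_beta` -/

lemma filter_card_lt {n : ℕ} (π : Equiv.Perm (Fin n)) (B : Finset (Fin n)) (p : Fin n)
    (hp : π p ∈ B) : (Finset.univ.filter fun q => q < p ∧ π q ∈ B).card < B.card := by
  have h1 : (Finset.univ.filter fun q => q < p ∧ π q ∈ B) ⊂ Finset.univ.filter fun q => π q ∈ B := by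
    rw [Finset.ssubset_iff_of_subset (by
      intro q hq
      rw [Finset.mem_filter] at hq ⊢
      exact ⟨hq.1, hq.2.2⟩)]
    refine ⟨p, by simp [hp], by simp⟩
  have h2 : (Finset.univ.filter fun q => π q ∈ B).card = B.card := by
    rw [← Finset.card_map π.toEmbedding]
    congr 1
    ext v
    simp only [Finset.mem_map, Finset.mem_filter, Finset.mem_univ, true_and]
    constructor
    · rintro ⟨q, hq, rfl⟩; exact hq
    · intro hv
      exact ⟨π⁻¹ v, by simpa using hv, by simp⟩
  rw [← h2]
  exact Finset.card_lt_card h1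

lemma fb_mem {n : ℕ} (β : Finpartition (Finset.univ : Finset (Fin n))) (π : Equiv.Perm (Fin n))
    (p : Fin n) : ∃ h : (Finset.univ.filter fun q => q < p ∧ π q ∈ β.part (π p)).card <
      ((β.part (π p)).sort (· ≤ ·)).length,
      fb β π p = ((β.part (π p)).sort (· ≤ ·))[(Finset.univ.filter fun q => q < p ∧
        π q ∈ β.part (π p)).card]'h := by
  have h := filter_card_lt π (β.part (π p)) p (β.mem_part (Finset.mem_univ _))
  have h' : (Finset.univ.filter fun q => q < p ∧ π q ∈ β.part (π p)).card <
      ((β.part (π p)).sort (· ≤ ·)).length := by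
    rw [Finset.length_sort]; exact h
  exact ⟨h', List.getD_eq_getElem _ _ h'⟩

lemma fb_part {n : ℕ} (β : Finpartition (Finset.univ : Finset (Fin n))) (π : Equiv.Perm (Fin n))
    (p : Fin n) : β.part (fb β π p) = β.part (π p) := by
  obtain ⟨h, e⟩ := fb_mem β π p
  apply β.part_eq_of_mem (β.part_mem.mpr (Finset.mem_univ _))
  rw [e, ← Finset.mem_sort (· ≤ ·)]
  exact List.getElem_mem h

lemma fb_lt {n : ℕ} (β : Finpartition (Finset.univ : Finset (Fin n))) (π : Equiv.Perm (Fin n))
    (p q : Fin n) (hpq : p < q) (hB : β.part (π p) = β.part (π q)) : fb β π p < fb β π q := by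
  obtain ⟨h1, e1⟩ := fb_mem β π p
  obtain ⟨h2, e2⟩ := fb_mem β π q
  rw [e1, e2]
  have hs : ((β.part (π q)).sort (· ≤ ·)).Pairwise (· < ·) := Finset.sortedLT_sort _ |>.pairwise
  have hlt : (Finset.univ.filter fun r => r < p ∧ π r ∈ β.part (π p)).card <
      (Finset.univ.filter fun r => r < q ∧ π r ∈ β.part (π q)).card := by
    apply Finset.card_lt_card
    rw [Finset.ssubset_iff_of_subset (by
      intro r hr
      rw [Finset.mem_filter] at hr ⊢
      exact ⟨hr.1, hr.2.1.trans hpq, hB ▸ hr.2.2⟩)]
    refine ⟨p, ?_, by simp⟩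
    rw [Finset.mem_filter]
    exact ⟨Finset.mem_univ _, hpq, by rw [← hB]; exact β.mem_part (Finset.mem_univ _)⟩
  have key : ∀ (L L' : List (Fin n)) (hL : L = L') (i j : ℕ) (hi : i < L.length) (hj : j < L'.length),
      L'.Pairwise (· < ·) → i < j → L[i] < L'[j] := by
    intro L L' hL i j hi hj hp hij
    subst hL
    exact List.pairwise_iff_getElem.mp hp i j hi hj hij
  exact key _ _ (by rw [hB]) _ _ h1 h2 hs hlt

lemma fb_perm {n : ℕ} (β : Finpartition (Finset.univ : Finset (Fin n))) (π : Equiv.Perm (Fin n)) :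
    ∃ w : Equiv.Perm (Fin n), (∀ p, fb β π p = w p) ∧ (∀ p, β.part (w p) = β.part (π p)) ∧
      (∀ p q, p < q → β.part (w p) = β.part (w q) → w p < w q) := by
  have hinj : Function.Injective (fb β π) := by
    intro p q h
    by_contra hne
    rcases lt_or_gt_of_ne hne with h1 | h1
    · have := fb_lt β π p q h1 (by rw [← fb_part β π p, ← fb_part β π q, h])
      exact absurd h this.ne
    · have := fb_lt β π q p h1 (by rw [← fb_part β π p, ← fb_part β π q, h])
      exact absurd h this.ne'
  refine ⟨Equiv.ofBijective (fb β π) (Finite.injective_iff_bijective.mp hinj), fun p => rfl,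
    fun p => fb_part β π p, fun p q hpq h => ?_⟩
  have h' : β.part (fb β π p) = β.part (fb β π q) := h
  rw [fb_part, fb_part] at h'
  exact fb_lt β π p q hpq h'

open Classical in
/-- For fixed `y`: which pairs (colouring, permutation) contribute. -/
lemma fb_iff {n a : ℕ} (c : Fin n → Fin a) (β : Finpartition (Finset.univ : Finset (Fin n)))
    (hc : ∀ u v, c u = c v ↔ β.part u = β.part v) (π u : Equiv.Perm (Fin n)) :
    (∀ p, fb β π p = u p) ↔ (c ∘ u = c ∘ π ∧ ∀ p q, p < q → c (u p) = c (u q) → u p < u q) := by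
  obtain ⟨w, h1, h2, h3⟩ := fb_perm β π
  have g1 : c ∘ w = c ∘ π := by
    funext p
    exact (hc _ _).mpr (h2 p)
  have g2 : ∀ p q, p < q → c (w p) = c (w q) → w p < w q :=
    fun p q hpq h => h3 p q hpq ((hc _ _).mp h)
  constructor
  · intro h
    have : w = u := by
      ext p
      rw [← h1 p, h p]
    subst this
    exact ⟨g1, g2⟩
  · rintro ⟨e1, e2⟩ p
    rw [h1 p]
    have : (fun p => w p) = fun p => u p := by
      apply sorted_unique (c ∘ w) (fun p => w p) (fun p => u p) (fun p q hpq h => (g2 p q hpq h).le)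
        (fun p q hpq h => (e2 p q hpq (by
          rw [g1, ← e1] at h
          exact h)).le) (w⁻¹ * u)
      · funext p
        have := congrFun e1 p
        have h' := congrFun g1 p
        simp only [Function.comp_apply, Equiv.Perm.coe_mul] at this h' ⊢
        rw [show w (w⁻¹ (u p)) = u p by simp, this, h']
      · funext p
        simp
    exact congrFun this p

/-- the word of `f_beta(pi)` in terms of a permutation -/
lemma word_eq {n : ℕ} (β : Finpartition (Finset.univ : Finset (Fin n))) (π w : Equiv.Perm (Fin n))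
    (h : ∀ p, fb β π p = w p) : word β π = List.ofFn fun p => (w p : ℕ) + 1 := by
  rw [word]
  congr 1
  funext p
  rw [h p]

open Classical in
lemma F_fb {n N : ℕ} (β : Finpartition (Finset.univ : Finset (Fin n))) (π : Equiv.Perm (Fin n)) :
    F ℤ N n (Des n (P (word β π))) = ∑ y : Fin n → Fin N,
      if (∀ p, fb β π p = (Tuple.sort y)⁻¹ p) then ∏ p, X (y p) else 0 := by
  obtain ⟨w, h1, h2, h3⟩ := fb_perm β π
  rw [word_eq β π w h1, F_word]
  refine Finset.sum_congr rfl fun y _ => ?_
  congr 1
  apply propext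
  constructor
  · intro h p
    rw [h1 p, ← h, inv_inv]
  · intro h
    have : w = (Tuple.sort y)⁻¹ := by
      ext p
      rw [← h1 p, h p]
    rw [this, inv_inv]

lemma sort_lt_iff {n N : ℕ} (y : Fin n → Fin N) (p q : Fin n) (hpq : p < q) :
    (Tuple.sort y)⁻¹ p < (Tuple.sort y)⁻¹ q ↔ y p ≤ y q := by
  have hst := (Tuple.eq_sort_iff (f := y) (σ := Tuple.sort y)).mp rfl
  constructor
  · intro h
    have := hst.1 h.le
    simpa using this
  · intro h
    by_contra hcon
    rw [not_lt] at hcon
    have hne : (Tuple.sort y)⁻¹ q ≠ (Tuple.sort y)⁻¹ p := fun h' =>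
      absurd ((Tuple.sort y)⁻¹.injective h') hpq.ne'
    have hlt := lt_of_le_of_ne hcon hne
    have h1 := hst.1 hlt.le
    have h1' : y q ≤ y p := by simpa using h1
    have h2 := hst.2 _ _ hlt (by simp; exact le_antisymm h1' h)
    simp at h2
    exact absurd hpq (not_lt.mpr h2.le)

/-! ### Set partitions and colourings -/

/-- the colouring `c` has the blocks of `β` as its colour classes -/
def Compat {n a : ℕ} (c : Fin n → Fin a) (β : Finpartition (Finset.univ : Finset (Fin n))) :
    Prop := ∀ u v, c u = c v ↔ β.part u = β.part v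

lemma exists_unique_compat {n a : ℕ} (c : Fin n → Fin a) :
    ∃! β : Finpartition (Finset.univ : Finset (Fin n)), Compat c β := by
  classical
  refine ⟨Finpartition.ofSetoid (Setoid.ker c), ?_, ?_⟩
  · intro u v
    constructor
    · intro h
      apply Eq.symm
      apply Finpartition.part_eq_of_mem _ (Finpartition.part_mem _ |>.mpr (Finset.mem_univ _))
      rw [Finpartition.mem_part_ofSetoid_iff_rel]
      exact h
    · intro h
      have h1 : v ∈ (Finpartition.ofSetoid (Setoid.ker c)).part u := by
        rw [h]; exact Finpartition.mem_part _ (Finset.mem_univ _)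
      rw [Finpartition.mem_part_ofSetoid_iff_rel] at h1
      exact h1
  · intro β hβ
    -- both have the same parts
    have hpart : ∀ u, β.part u = (Finpartition.ofSetoid (Setoid.ker c)).part u := by
      intro u
      ext v
      rw [Finpartition.mem_part_ofSetoid_iff_rel]
      have : v ∈ β.part u ↔ β.part v = β.part u := by
        constructor
        · intro h
          exact β.part_eq_of_mem (β.part_mem.mpr (Finset.mem_univ _)) h
        · intro h
          rw [← h]; exact β.mem_part (Finset.mem_univ _)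
      rw [this, ← hβ v u]
      exact eq_comm
    ext B
    constructor
    · intro hB
      obtain ⟨u, hu⟩ := β.nonempty_of_mem_parts hB
      rw [← β.part_eq_of_mem hB hu, hpart]
      exact Finpartition.part_mem _ |>.mpr (Finset.mem_univ _)
    · intro hB
      obtain ⟨u, hu⟩ := Finpartition.nonempty_of_mem_parts _ hB
      rw [← Finpartition.part_eq_of_mem _ hB hu, ← hpart]
      exact β.part_mem.mpr (Finset.mem_univ _)

open Classical in
lemma card_compat {n a : ℕ} (β : Finpartition (Finset.univ : Finset (Fin n))) :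
    (Finset.univ.filter fun c : Fin n → Fin a => Compat c β).card =
      a.descFactorial β.parts.card := by
  have h1 : Fintype.card (β.parts ↪ Fin a) = a.descFactorial β.parts.card := by
    rw [Fintype.card_embedding_eq, Fintype.card_fin, Fintype.card_coe]
  rw [← h1, ← Fintype.card_subtype]
  have hne : ∀ B : β.parts, ∃ u, u ∈ (B : Finset (Fin n)) := fun B => β.nonempty_of_mem_parts B.2
  choose r hr using hne
  have hpr : ∀ B : β.parts, β.part (r B) = B := fun B => β.part_eq_of_mem B.2 (hr B)
  apply Fintype.card_congr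
  refine ⟨fun c => ⟨fun B => c.1 (r B), ?_⟩, fun e => ⟨fun u => e ⟨β.part u, β.part_mem.mpr
    (Finset.mem_univ _)⟩, ?_⟩, ?_, ?_⟩
  · intro B B' h
    have := (c.2 _ _).mp h
    rw [hpr, hpr] at this
    exact Subtype.ext this
  · intro u v
    constructor
    · intro h
      have := e.injective h
      exact congrArg Subtype.val this
    · intro h
      have h' : (⟨β.part u, β.part_mem.mpr (Finset.mem_univ _)⟩ : β.parts) =
        ⟨β.part v, β.part_mem.mpr (Finset.mem_univ _)⟩ := Subtype.ext h
      show e _ = e _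
      rw [h']
  · intro c
    apply Subtype.ext
    funext u
    apply (c.2 _ _).mpr
    rw [hpr]
  · intro e
    ext B
    simp [hpr]

lemma eval_falling (a k : ℕ) :
    Polynomial.evalRingHom (a : ℤ) (falling k) = (a.descFactorial k : ℤ) := by
  induction k with
  | zero => simp [falling]
  | succ k ih =>
    rw [falling, Finset.prod_range_succ, map_mul, ← falling, ih, Nat.descFactorial_succ]
    simp only [Polynomial.coe_evalRingHom, Polynomial.eval_sub, Polynomial.eval_X,
      Polynomial.eval_natCast]
    rcases le_or_gt k a with h | h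
    · push_cast [h]; ring
    · rw [Nat.descFactorial_of_lt h]; simp

open Classical in
/-- The right hand side at `alpha = a`. -/
lemma rhs_eval {n N a : ℕ} :
    ∑ π : Equiv.Perm (Fin n), ∑ β : Finpartition (Finset.univ : Finset (Fin n)),
      C (a.descFactorial β.parts.card : ℤ) * F ℤ N n (Des n (P (word β π))) =
    ∑ y : Fin n → Fin N, C (∏ i : Fin N, ∏ j ∈ Finset.range
      (Finset.univ.filter fun p => y p = i).card, ((a : ℤ) + j)) * ∏ p, X (y p) := by
  -- first: colourings instead of partitions
  have h1 : ∀ π : Equiv.Perm (Fin n), ∑ β : Finpartition (Finset.univ : Finset (Fin n)),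
      C (a.descFactorial β.parts.card : ℤ) * F ℤ N n (Des n (P (word β π))) =
      ∑ c : Fin n → Fin a, ∑ y : Fin n → Fin N,
        if (c ∘ ((Tuple.sort y)⁻¹ : Equiv.Perm (Fin n)) = c ∘ π ∧
          SortedOn (c ∘ ((Tuple.sort y)⁻¹ : Equiv.Perm (Fin n))) y)
        then ∏ p, X (y p) else 0 := by
    intro π
    have h2 : ∀ β : Finpartition (Finset.univ : Finset (Fin n)),
        C (a.descFactorial β.parts.card : ℤ) * F ℤ N n (Des n (P (word β π))) =
        ∑ c : Fin n → Fin a, if Compat c β then F ℤ N n (Des n (P (word β π))) else 0 := by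
      intro β
      rw [← card_compat β, ← Finset.sum_filter, Finset.sum_const, nsmul_eq_mul]
      simp
    rw [Finset.sum_congr rfl fun β _ => h2 β, Finset.sum_comm]
    refine Finset.sum_congr rfl fun c _ => ?_
    obtain ⟨β, hβ, huniq⟩ := exists_unique_compat c
    rw [Finset.sum_eq_single β]
    · rw [if_pos hβ, F_fb]
      refine Finset.sum_congr rfl fun y _ => ?_
      congr 1
      apply propext
      rw [fb_iff c β hβ π (Tuple.sort y)⁻¹]
      refine and_congr_right fun _ => ?_
      constructor
      · intro h p q hpq hc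
        rw [← sort_lt_iff y p q hpq]
        exact h p q hpq hc
      · intro h p q hpq hc
        rw [sort_lt_iff y p q hpq]
        exact h p q hpq hc
    · intro β' _ hne
      rw [if_neg (fun h => hne (huniq β' h))]
    · intro h; exact absurd (Finset.mem_univ _) h
  rw [Finset.sum_congr rfl fun π _ => h1 π]
  -- reorganize
  have h3 : ∑ π : Equiv.Perm (Fin n), ∑ c : Fin n → Fin a, ∑ y : Fin n → Fin N,
        (if (c ∘ ((Tuple.sort y)⁻¹ : Equiv.Perm (Fin n)) = c ∘ π ∧
          SortedOn (c ∘ ((Tuple.sort y)⁻¹ : Equiv.Perm (Fin n))) y)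
        then (∏ p, X (y p) : MvPolynomial (Fin N) ℤ) else 0) =
      ∑ y : Fin n → Fin N, ∑ c : Fin n → Fin a, ∑ g : Equiv.Perm (Fin n),
        (if (c ∘ g = c ∧ SortedOn c y) then (∏ p, X (y p) : MvPolynomial (Fin N) ℤ) else 0) := by
    have : ∑ π : Equiv.Perm (Fin n), ∑ c : Fin n → Fin a, ∑ y : Fin n → Fin N,
        (if (c ∘ ((Tuple.sort y)⁻¹ : Equiv.Perm (Fin n)) = c ∘ π ∧
          SortedOn (c ∘ ((Tuple.sort y)⁻¹ : Equiv.Perm (Fin n))) y)
        then (∏ p, X (y p) : MvPolynomial (Fin N) ℤ) else 0) =
        ∑ y : Fin n → Fin N, ∑ c : Fin n → Fin a, ∑ π : Equiv.Perm (Fin n),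
        (if (c ∘ ((Tuple.sort y)⁻¹ : Equiv.Perm (Fin n)) = c ∘ π ∧
          SortedOn (c ∘ ((Tuple.sort y)⁻¹ : Equiv.Perm (Fin n))) y)
        then (∏ p, X (y p) : MvPolynomial (Fin N) ℤ) else 0) := by
      rw [Finset.sum_comm]
      rw [Finset.sum_congr rfl fun c _ => Finset.sum_comm]
      rw [Finset.sum_comm]
    rw [this]
    refine Finset.sum_congr rfl fun y _ => ?_
    set u : Equiv.Perm (Fin n) := (Tuple.sort y)⁻¹ with hu
    rw [← Equiv.sum_comp (Equiv.arrowCongr u (Equiv.refl (Fin a)))]
    refine Finset.sum_congr rfl fun c _ => ?_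
    rw [← Equiv.sum_comp (Equiv.mulLeft u)]
    refine Finset.sum_congr rfl fun g _ => ?_
    have e1 : ((Equiv.arrowCongr u (Equiv.refl (Fin a))) c) ∘ u = c := by
      funext p; simp [Equiv.arrowCongr]
    have e2 : ((Equiv.arrowCongr u (Equiv.refl (Fin a))) c) ∘ (Equiv.mulLeft u g) = c ∘ g := by
      funext p
      simp [Equiv.arrowCongr]
    rw [e1, e2]
    congr 1
    apply propext
    rw [eq_comm]
  rw [h3]
  -- use the key identity
  have h4 : ∑ y : Fin n → Fin N, ∑ c : Fin n → Fin a, ∑ g : Equiv.Perm (Fin n),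
        (if (c ∘ g = c ∧ SortedOn c y) then (∏ p, X (y p) : MvPolynomial (Fin N) ℤ) else 0) =
      ∑ y : Fin n → Fin N, ∑ c : Fin n → Fin a, ∑ g : Equiv.Perm (Fin n),
        (if (c ∘ g = c ∧ y ∘ g = y) then (∏ p, X (y p) : MvPolynomial (Fin N) ℤ) else 0) := by
    rw [Finset.sum_comm, Finset.sum_comm (s := (Finset.univ : Finset (Fin n → Fin N)))]
    refine Finset.sum_congr rfl fun c _ => ?_
    rw [Finset.sum_comm, Finset.sum_comm (s := (Finset.univ : Finset (Fin n → Fin N)))]
    have := key_identity (N := N) c (fun y => (∏ p, X (y p) : MvPolynomial (Fin N) ℤ))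
      (fun y g => Equiv.prod_comp g (fun p => (X (y p) : MvPolynomial (Fin N) ℤ)))
    simp only [ite_and]
    have e1 : ∀ (g : Equiv.Perm (Fin n)),
        (∑ y : Fin n → Fin N, if c ∘ g = c then
          (if SortedOn c y then (∏ p, X (y p) : MvPolynomial (Fin N) ℤ) else 0) else 0) =
        if c ∘ g = c then ∑ y : Fin n → Fin N,
          (if SortedOn c y then (∏ p, X (y p) : MvPolynomial (Fin N) ℤ) else 0) else 0 := by
      intro g
      by_cases h : c ∘ g = c
      · simp [h]
      · simp [h]
    have e2 : ∀ (g : Equiv.Perm (Fin n)),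
        (∑ y : Fin n → Fin N, if c ∘ g = c then
          (if y ∘ g = y then (∏ p, X (y p) : MvPolynomial (Fin N) ℤ) else 0) else 0) =
        if c ∘ g = c then ∑ y : Fin n → Fin N,
          (if y ∘ g = y then (∏ p, X (y p) : MvPolynomial (Fin N) ℤ) else 0) else 0 := by
      intro g
      by_cases h : c ∘ g = c
      · simp [h]
      · simp [h]
    rw [Finset.sum_congr rfl fun g _ => e1 g, Finset.sum_congr rfl fun g _ => e2 g]
    exact this
  rw [h4]
  refine Finset.sum_congr rfl fun y _ => ?_
  rw [← count_stab n y, map_sum, Finset.sum_mul]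
  refine Finset.sum_congr rfl fun c _ => ?_
  rw [map_sum, Finset.sum_mul]
  refine Finset.sum_congr rfl fun g _ => ?_
  split_ifs
  · rw [C_1, one_mul]
  · rw [C_0, zero_mul]

/-! ### The Jack polynomial at `alpha = a` -/

/-- the multiset of values of `y` -/
def content {n N : ℕ} (y : Fin n → Fin N) : Sym (Fin N) n :=
  ⟨(Finset.univ : Finset (Fin n)).val.map y, by simp⟩

lemma prod_map_X {N : ℕ} (m : Multiset (Fin N)) :
    (m.map (X : Fin N → MvPolynomial (Fin N) ℤ)).prod = monomial (Multiset.toFinsupp m) 1 := by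
  induction m using Multiset.induction_on with
  | empty => simp
  | cons a m ih =>
    rw [Multiset.map_cons, Multiset.prod_cons, ih, ← Multiset.singleton_add, map_add,
      Multiset.toFinsupp_singleton, X, monomial_mul, one_mul]

lemma prod_X_content {n N : ℕ} (y : Fin n → Fin N) :
    (∏ p, X (y p) : MvPolynomial (Fin N) ℤ) = ((content y).1.map X).prod := by
  rw [content, Multiset.map_map]
  rfl

open Classical in
lemma card_content {n N : ℕ} (s : Sym (Fin N) n) :
    ((Finset.univ.filter fun y : Fin n → Fin N => content y = s).card : ℤ) =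
      (s : Multiset (Fin N)).countPerms := by
  have h1 := Fintype.sum_pow (fun i : Fin N => (X i : MvPolynomial (Fin N) ℤ)) n
  have h2 := Finset.sum_pow (s := (Finset.univ : Finset (Fin N)))
    (fun i : Fin N => (X i : MvPolynomial (Fin N) ℤ)) n
  rw [h1] at h2
  have h3 := congrArg (coeff (Multiset.toFinsupp (s : Multiset (Fin N)))) h2
  rw [coeff_sum, coeff_sum] at h3
  have h4 : ∀ y : Fin n → Fin N, coeff (Multiset.toFinsupp (s : Multiset (Fin N)))
      (∏ p, X (y p) : MvPolynomial (Fin N) ℤ) = if content y = s then 1 else 0 := by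
    intro y
    rw [prod_X_content, prod_map_X, coeff_monomial]
    congr 1
    apply propext
    rw [EmbeddingLike.apply_eq_iff_eq]
    exact Subtype.ext_iff.symm
  have h5 : ∀ k : Sym (Fin N) n, coeff (Multiset.toFinsupp (s : Multiset (Fin N)))
      (((k : Multiset (Fin N)).countPerms : MvPolynomial (Fin N) ℤ) *
        ((k : Multiset (Fin N)).map X).prod) =
      if k = s then ((k : Multiset (Fin N)).countPerms : ℤ) else 0 := by
    intro k
    rw [prod_map_X, ← map_natCast (C : ℤ →+* MvPolynomial (Fin N) ℤ), coeff_C_mul, coeff_monomial]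
    by_cases h : k = s
    · subst h; simp
    · rw [if_neg h, if_neg, mul_zero]
      intro h'
      apply h
      rw [EmbeddingLike.apply_eq_iff_eq] at h'
      exact Subtype.ext h'
  replace h3 := ((Finset.sum_congr rfl fun y _ => (h4 y).symm).trans h3).trans
    (Finset.sum_congr rfl fun k _ => h5 k)
  rw [Finset.card_filter]
  push_cast
  rw [h3, Finset.sum_eq_single s]
  · rw [if_pos rfl]
  · intro b _ hb; rw [if_neg hb]
  · intro h
    exfalso
    apply h
    rw [Finset.mem_sym_iff]
    intro a _
    exact Finset.mem_univ a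

lemma count_content {n N : ℕ} (y : Fin n → Fin N) (i : Fin N) :
    (content y : Multiset (Fin N)).count i = (Finset.univ.filter fun p => y p = i).card := by
  show ((Finset.univ : Finset (Fin n)).val.map y).count i = _
  rw [Multiset.count_map, Finset.card_def, Finset.filter_val]
  congr 1
  apply Multiset.filter_congr
  intro p _
  exact eq_comm

lemma msymm_map {n N : ℕ} (a : ℤ) (lam : Nat.Partition n) :
    map (Polynomial.evalRingHom a) (msymm (Fin N) (Polynomial ℤ) lam) = msymm (Fin N) ℤ lam := by
  rw [msymm, msymm, map_sum]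
  refine Finset.sum_congr rfl fun s _ => ?_
  rw [map_multiset_prod, Multiset.map_map]
  congr 1
  apply Multiset.map_congr rfl
  intro i _
  exact map_X _ _

lemma parts_prod {n N : ℕ} {M : Type} [CommMonoid M] (s : Sym (Fin N) n) (f : ℕ → M)
    (hf : f 0 = 1) :
    ((Nat.Partition.ofSym s).parts.map f).prod = ∏ i : Fin N, f ((s : Multiset (Fin N)).count i) := by
  show (((s : Multiset (Fin N)).dedup.map (fun a => (s : Multiset (Fin N)).count a)).map f).prod = _
  rw [Multiset.map_map]
  have : (Multiset.map (f ∘ fun a => (s : Multiset (Fin N)).count a) (s : Multiset (Fin N)).dedup).prod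
      = ∏ i ∈ (s : Multiset (Fin N)).toFinset, f ((s : Multiset (Fin N)).count i) := rfl
  rw [this]
  apply Finset.prod_subset (Finset.subset_univ _)
  intro i _ hi
  rw [Multiset.mem_toFinset] at hi
  rw [Multiset.count_eq_zero_of_notMem hi, hf]

lemma countPerms_eq {n N : ℕ} (s : Sym (Fin N) n) :
    n.factorial / ((Nat.Partition.ofSym s).parts.map Nat.factorial).prod =
      (s : Multiset (Fin N)).countPerms := by
  rw [parts_prod s Nat.factorial rfl, Multiset.countPerms, Finsupp.multinomial]
  congr 1
  · congr 1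
    rw [Finsupp.sum_fintype _ _ (fun _ => rfl)]
    simp only [id, Multiset.toFinsupp_apply]
    have h0 := Multiset.toFinset_sum_count_eq (s : Multiset (Fin N))
    have hc : (s : Multiset (Fin N)).card = n := s.2
    rw [hc] at h0
    refine h0.symm.trans ?_
    apply Finset.sum_subset (Finset.subset_univ _)
    intro i _ hi
    rw [Multiset.mem_toFinset] at hi
    exact Multiset.count_eq_zero_of_notMem hi
  · rw [Finsupp.prod_fintype _ _ (fun _ => rfl)]
    simp only [Multiset.toFinsupp_apply]

/-- The left hand side at `alpha = a`. -/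
lemma lhs_eval {n N a : ℕ} : map (Polynomial.evalRingHom (a : ℤ)) (J n N) =
    ∑ y : Fin n → Fin N, C (∏ i : Fin N, ∏ j ∈ Finset.range
      (Finset.univ.filter fun p => y p = i).card, ((a : ℤ) + j)) * ∏ p, X (y p) := by
  classical
  let K : Nat.Partition n → ℤ := fun lam =>
    ((n.factorial / (lam.parts.map Nat.factorial).prod : ℕ) : ℤ) *
      (lam.parts.map fun l => ∏ arm ∈ Finset.range l, ((a : ℤ) + arm)).prod
  have h1 : map (Polynomial.evalRingHom (a : ℤ)) (J n N) =
      ∑ lam : Nat.Partition n, C (K lam) * msymm (Fin N) ℤ lam := by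
    rw [J, map_sum]
    refine Finset.sum_congr rfl fun lam _ => ?_
    rw [map_mul, msymm_map, map_C]
    congr 2
    rw [map_mul, map_natCast, map_multiset_prod, Multiset.map_map]
    congr 2
    apply Multiset.map_congr rfl
    intro l _
    simp only [Function.comp_apply]
    rw [map_prod]
    refine Finset.prod_congr rfl fun j _ => ?_
    simp
  have h2 : ∑ lam : Nat.Partition n, C (K lam) * msymm (Fin N) ℤ lam =
      ∑ s : Sym (Fin N) n, C (K (Nat.Partition.ofSym s)) * ((s : Multiset (Fin N)).map X).prod := by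
    simp only [msymm, Finset.mul_sum]
    rw [← Equiv.sum_comp (Equiv.sigmaFiberEquiv (fun s : Sym (Fin N) n => Nat.Partition.ofSym s)),
      Fintype.sum_sigma]
    refine Finset.sum_congr rfl fun lam _ => Finset.sum_congr rfl fun s _ => ?_
    have : (Equiv.sigmaFiberEquiv fun s : Sym (Fin N) n => Nat.Partition.ofSym s) ⟨lam, s⟩ = s.1 :=
      rfl
    rw [this, s.2]
    rfl
  have h3 : ∑ y : Fin n → Fin N, C (∏ i : Fin N, ∏ j ∈ Finset.range
      (Finset.univ.filter fun p => y p = i).card, ((a : ℤ) + j)) *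
        (∏ p, X (y p) : MvPolynomial (Fin N) ℤ) =
      ∑ s : Sym (Fin N) n, ∑ y : Fin n → Fin N, if content y = s then
        C (∏ i : Fin N, ∏ j ∈ Finset.range ((s : Multiset (Fin N)).count i), ((a : ℤ) + j)) *
        ((s : Multiset (Fin N)).map X).prod else 0 := by
    rw [Finset.sum_comm]
    refine Finset.sum_congr rfl fun y _ => ?_
    rw [Finset.sum_eq_single (content y)]
    · rw [if_pos rfl, prod_X_content]
      simp only [count_content]
      rfl
    · intro b _ hb; rw [if_neg (fun h => hb h.symm)]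
    · intro h; exact absurd (Finset.mem_univ _) h
  rw [h1, h2, h3]
  refine Finset.sum_congr rfl fun s _ => ?_
  rw [← Finset.sum_filter, Finset.sum_const, nsmul_eq_mul, ← mul_assoc]
  congr 1
  rw [← map_natCast (C : ℤ →+* MvPolynomial (Fin N) ℤ), ← map_mul]
  congr 1
  show ((n.factorial / ((Nat.Partition.ofSym s).parts.map Nat.factorial).prod : ℕ) : ℤ) * _ = _
  rw [countPerms_eq, parts_prod s _ (by simp)]
  congr 1
  exact (card_content s).symm

/-- **MP_d77547, Q1.**  For all `n ≥ 1` and every number `N` of variables, the normalised one-row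
Jack polynomial equals the sum over permutations `pi` and set partitions `beta` of
`alpha (alpha - 1) ... (alpha - |beta| + 1) F_{Des(P(f_beta(pi)))}(x_1, ..., x_N)`, as polynomials
in `alpha` and `x_1, ..., x_N`. -/
theorem result (n N : ℕ) (_ : 1 ≤ n) :
    J n N = ∑ π : Equiv.Perm (Fin n), ∑ β : Finpartition (Finset.univ : Finset (Fin n)),
      C (falling β.parts.card) * F (Polynomial ℤ) N n (Des n (P (word β π))) := by
  apply ext_eval
  intro a
  rw [lhs_eval, ← rhs_eval, map_sum]
  refine Finset.sum_congr rfl fun π _ => ?_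
  rw [map_sum]
  refine Finset.sum_congr rfl fun β _ => ?_
  rw [map_mul, map_F, map_C, eval_falling]

end Pool.Agent.Results.MP_d77547_co.OneRowJack
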